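import Pool.Agent.H743.X17.Stm

/-!
# X17 SYSB: a nonzero solution of the global system gives a class with the local conditions
-/

set_option autoImplicit false

open scoped Classical

namespace Pool.Agent.H686.X17

open Pool.Agent.H743.X17

/-- additive symbol -/
def aj (p : ℕ) (n : ℤ) : ZMod 2 := if jacobiSym n p = 1 then 0 else 1

/-- additive character modulo 4 -/
def f4 (n : ℤ) : ZMod 2 := if n % 4 = 3 then 1 else 0

/-- additive character modulo 8 -/
def f8 (n : ℤ) : ZMod 2 := if n % 8 = 1 ∨ n % 8 = 7 then 0 else 1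

/-- the squarefree part of the prime discriminant -/
def vq (m : ℤ) (q : ℕ) : ℤ :=
  if q = 2 then (if m % 4 = 3 then -1 else if m % 8 = 2 then 2 else -2)
  else if q % 4 = 1 then q else -q

theorem z2 (a : ZMod 2) : a = 0 ∨ a = 1 := by
  fin_cases a
  · left; rfl
  · right; rfl

theorem z2_add_self (a : ZMod 2) : a + a = 0 := by
  rcases z2 a with h | h <;> subst h <;> decide

theorem z2_mul_self (a : ZMod 2) : a * a = a := by
  rcases z2 a with h | h <;> subst h <;> decide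

theorem z2_eq_of_add {a b : ZMod 2} (h : a + b = 0) : a = b := by
  revert h; rcases z2 a with h1 | h1 <;> rcases z2 b with h2 | h2 <;> subst h1 <;> subst h2 <;> decide

/-! ### the symbol -/

theorem jac_ne {p : ℕ} (hp : p.Prime) {a : ℤ} (ha : ¬ (p : ℤ) ∣ a) : jacobiSym a p ≠ 0 := by
  apply jacobiSym.ne_zero
  have h := (Nat.Prime.coprime_iff_not_dvd hp (n := a.natAbs)).2 (by
    intro h; exact ha (Int.natCast_dvd.2 h))
  rw [Int.gcd_comm]
  simpa [Int.gcd, Nat.Coprime] using h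

theorem jac_cases {p : ℕ} (hp : p.Prime) {a : ℤ} (ha : ¬ (p : ℤ) ∣ a) :
    jacobiSym a p = 1 ∨ jacobiSym a p = -1 := by
  rcases jacobiSym.trichotomy a p with h | h | h
  · exact absurd h (jac_ne hp ha)
  · exact Or.inl h
  · exact Or.inr h

theorem aj_mul {p : ℕ} (hp : p.Prime) {a b : ℤ} (ha : ¬ (p : ℤ) ∣ a) (hb : ¬ (p : ℤ) ∣ b) :
    aj p (a * b) = aj p a + aj p b := by
  unfold aj
  rw [jacobiSym.mul_left]
  rcases jac_cases hp ha with h | h <;> rcases jac_cases hp hb with h' | h' <;> rw [h, h'] <;> decide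

theorem nd_mul {p : ℕ} (hp : p.Prime) {a b : ℤ} (ha : ¬ (p : ℤ) ∣ a) (hb : ¬ (p : ℤ) ∣ b) :
    ¬ (p : ℤ) ∣ a * b := by
  intro h
  rcases (Nat.prime_iff_prime_int.1 hp).dvd_or_dvd h with h | h
  · exact ha h
  · exact hb h

theorem nd_one {p : ℕ} (hp : p.Prime) : ¬ (p : ℤ) ∣ 1 := by
  intro h
  have := Int.natCast_dvd.1 h
  exact hp.one_lt.ne' (Nat.dvd_one.1 (by simpa using this))

theorem nd_neg {p : ℕ} {a : ℤ} (ha : ¬ (p : ℤ) ∣ a) : ¬ (p : ℤ) ∣ -a := by
  rwa [dvd_neg]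

theorem aj_one (p : ℕ) : aj p 1 = 0 := by
  unfold aj; rw [jacobiSym.one_left]; rfl

theorem nd_prod {p : ℕ} (hp : p.Prime) (s : Finset ℕ) (f : ℕ → ℤ)
    (h : ∀ q ∈ s, ¬ (p : ℤ) ∣ f q) : ¬ (p : ℤ) ∣ ∏ q ∈ s, f q := by
  intro hd
  obtain ⟨q, hq, hd⟩ := (Prime.dvd_finsetProd_iff (Nat.prime_iff_prime_int.1 hp) _).1 hd
  exact h q hq hd

theorem aj_prod {p : ℕ} (hp : p.Prime) (s : Finset ℕ) (f : ℕ → ℤ)
    (h : ∀ q ∈ s, ¬ (p : ℤ) ∣ f q) : aj p (∏ q ∈ s, f q) = ∑ q ∈ s, aj p (f q) := by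
  induction s using Finset.induction_on with
  | empty => simp [aj_one]
  | insert a s ha ih =>
    rw [Finset.prod_insert ha, Finset.sum_insert ha, aj_mul hp (h a (Finset.mem_insert_self _ _))
      (nd_prod hp s f fun q hq => h q (Finset.mem_insert_of_mem hq)),
      ih fun q hq => h q (Finset.mem_insert_of_mem hq)]

/-! ### the characters modulo 4 and 8 -/

theorem f4_mul {a b : ℤ} (ha : a % 2 = 1) (hb : b % 2 = 1) : f4 (a * b) = f4 a + f4 b := by
  have h1 : a % 4 = 1 ∨ a % 4 = 3 := by omega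
  have h2 : b % 4 = 1 ∨ b % 4 = 3 := by omega
  unfold f4
  rw [Int.mul_emod]
  rcases h1 with h1 | h1 <;> rcases h2 with h2 | h2 <;> rw [h1, h2] <;> decide

theorem f8_mul {a b : ℤ} (ha : a % 2 = 1) (hb : b % 2 = 1) : f8 (a * b) = f8 a + f8 b := by
  have h1 : a % 8 = 1 ∨ a % 8 = 3 ∨ a % 8 = 5 ∨ a % 8 = 7 := by omega
  have h2 : b % 8 = 1 ∨ b % 8 = 3 ∨ b % 8 = 5 ∨ b % 8 = 7 := by omega
  unfold f8
  rw [Int.mul_emod]
  rcases h1 with h1 | h1 | h1 | h1 <;> rcases h2 with h2 | h2 | h2 | h2 <;> rw [h1, h2] <;> decide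

theorem odd_prod (s : Finset ℕ) (f : ℕ → ℤ) (h : ∀ q ∈ s, f q % 2 = 1) :
    (∏ q ∈ s, f q) % 2 = 1 := by
  induction s using Finset.induction_on with
  | empty => simp
  | insert a s ha ih =>
    rw [Finset.prod_insert ha, Int.mul_emod, h a (Finset.mem_insert_self _ _),
      ih fun q hq => h q (Finset.mem_insert_of_mem hq)]
    rfl

theorem f4_prod (s : Finset ℕ) (f : ℕ → ℤ) (h : ∀ q ∈ s, f q % 2 = 1) :
    f4 (∏ q ∈ s, f q) = ∑ q ∈ s, f4 (f q) := by
  induction s using Finset.induction_on with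
  | empty => simp [f4]
  | insert a s ha ih =>
    rw [Finset.prod_insert ha, Finset.sum_insert ha, f4_mul (h a (Finset.mem_insert_self _ _))
      (odd_prod s f fun q hq => h q (Finset.mem_insert_of_mem hq)),
      ih fun q hq => h q (Finset.mem_insert_of_mem hq)]

theorem f8_prod (s : Finset ℕ) (f : ℕ → ℤ) (h : ∀ q ∈ s, f q % 2 = 1) :
    f8 (∏ q ∈ s, f q) = ∑ q ∈ s, f8 (f q) := by
  induction s using Finset.induction_on with
  | empty => simp [f8]
  | insert a s ha ih =>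
    rw [Finset.prod_insert ha, Finset.sum_insert ha, f8_mul (h a (Finset.mem_insert_self _ _))
      (odd_prod s f fun q hq => h q (Finset.mem_insert_of_mem hq)),
      ih fun q hq => h q (Finset.mem_insert_of_mem hq)]

/-! ### supplementary laws -/

theorem odd_of_prime {p : ℕ} (hp : p.Prime) (h2 : p ≠ 2) : Odd p := hp.odd_of_ne_two h2

theorem cast_mod4 {p : ℕ} (h : p % 2 = 1) : ((p : ℤ) % 4 = 1 ∧ p % 4 = 1) ∨
    ((p : ℤ) % 4 = 3 ∧ p % 4 = 3) := by omega

theorem aj_neg_one {p : ℕ} (hp : p.Prime) (h2 : p ≠ 2) : aj p (-1) = f4 p := by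
  have ho : p % 2 = 1 := Nat.odd_iff.1 (odd_of_prime hp h2)
  unfold aj f4
  rw [jacobiSym.at_neg_one (odd_of_prime hp h2), ZMod.χ₄_nat_eq_if_mod_four]
  rcases cast_mod4 ho with h | h <;> rw [h.1, h.2] <;> simp [ho]

theorem aj_two {p : ℕ} (hp : p.Prime) (h2 : p ≠ 2) : aj p 2 = f8 p := by
  have ho : p % 2 = 1 := Nat.odd_iff.1 (odd_of_prime hp h2)
  unfold aj f8
  rw [jacobiSym.at_two (odd_of_prime hp h2), ZMod.χ₈_nat_eq_if_mod_eight]
  have h8 : ((p : ℤ) % 8 = 1 ∧ p % 8 = 1) ∨ ((p : ℤ) % 8 = 3 ∧ p % 8 = 3) ∨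
    ((p : ℤ) % 8 = 5 ∧ p % 8 = 5) ∨ ((p : ℤ) % 8 = 7 ∧ p % 8 = 7) := by omega
  rcases h8 with h | h | h | h <;> rw [h.1, h.2] <;> simp [ho]

/-- the sign of the odd prime discriminant -/
def ep (q : ℕ) : ℤ := if q % 4 = 1 then 1 else -1

theorem nd_prime {p q : ℕ} (hp : p.Prime) (hq : q.Prime) (hne : p ≠ q) : ¬ (p : ℤ) ∣ (q : ℤ) := by
  intro h
  exact hne ((Nat.prime_dvd_prime_iff_eq hp hq).1 (Int.natCast_dvd_natCast.1 h))

theorem nd_ep {p : ℕ} (hp : p.Prime) (q : ℕ) : ¬ (p : ℤ) ∣ ep q := by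
  unfold ep
  split_ifs
  · exact nd_one hp
  · exact nd_neg (nd_one hp)

theorem aj_ep {p q : ℕ} (hp : p.Prime) (h2 : p ≠ 2) (hq : q % 2 = 1) :
    aj p (ep q) = f4 p * f4 q := by
  unfold ep
  rcases cast_mod4 hq with h | h
  · rw [if_pos h.2, aj_one]
    unfold f4; rw [h.1]; simp
  · rw [if_neg (by omega), aj_neg_one hp h2]
    have : f4 q = 1 := by unfold f4; rw [if_pos h.1]
    rw [this, mul_one]

/-- reciprocity -/
theorem aj_rec {p q : ℕ} (hp : p.Prime) (hq : q.Prime) (hp2 : p ≠ 2) (hq2 : q ≠ 2) (hne : p ≠ q) :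
    aj p (ep q * q) = aj q p := by
  have hop := odd_of_prime hp hp2
  have hoq := odd_of_prime hq hq2
  have h1 : p % 2 = 1 := Nat.odd_iff.1 hop
  have h2 : q % 2 = 1 := Nat.odd_iff.1 hoq
  rw [aj_mul hp (nd_ep hp q) (nd_prime hp hq hne), aj_ep hp hp2 h2]
  have hJ : jacobiSym p q ≠ 0 := jac_ne hq (nd_prime hq hp (Ne.symm hne))
  rcases cast_mod4 h1 with hp4 | hp4
  · have e : f4 p = 0 := by unfold f4; rw [if_neg (by omega)]
    rw [e, zero_mul, zero_add]
    unfold aj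
    rw [jacobiSym.quadratic_reciprocity_one_mod_four hp4.2 hoq]
  · rcases cast_mod4 h2 with hq4 | hq4
    · have e : f4 q = 0 := by unfold f4; rw [if_neg (by omega)]
      rw [e, mul_zero, zero_add]
      unfold aj
      rw [jacobiSym.quadratic_reciprocity_one_mod_four hq4.2 hop]
    · have e : f4 q = 1 := by unfold f4; rw [if_pos hq4.1]
      have e' : f4 p = 1 := by unfold f4; rw [if_pos hp4.1]
      rw [e, e', one_mul]
      unfold aj
      rw [jacobiSym.quadratic_reciprocity_three_mod_four hq4.2 hp4.2]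
      rcases jac_cases hq (nd_prime hq hp (Ne.symm hne)) with h | h <;> rw [h] <;> decide


/-! ### the primes -/

theorem mem_RS {m : ℤ} (hm : Squarefree m) {p : ℕ} :
    p ∈ RS m ↔ p.Prime ∧ ((p : ℤ) ∣ m ∨ (p = 2 ∧ m % 4 ≠ 1)) := by
  have hm0 : m ≠ 0 := hm.ne_zero
  have hm0' : m.natAbs ≠ 0 := Int.natAbs_ne_zero.2 hm0
  unfold RS Kn
  split_ifs with h
  · rw [Nat.mem_primeFactors, Int.natCast_dvd]
    constructor
    · rintro ⟨h1, h2, -⟩; exact ⟨h1, Or.inl h2⟩
    · rintro ⟨h1, h2 | h2⟩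
      · exact ⟨h1, h2, hm0'⟩
      · exact absurd h h2.2
  · rw [Nat.mem_primeFactors, Int.natCast_dvd]
    constructor
    · rintro ⟨h1, h2, -⟩
      refine ⟨h1, ?_⟩
      rcases h1.dvd_mul.1 h2 with h3 | h3
      · right
        refine ⟨?_, h⟩
        have h4 : p ∣ 2 ^ 2 := by norm_num; exact h3
        exact (Nat.prime_dvd_prime_iff_eq h1 Nat.prime_two).1 (h1.dvd_of_dvd_pow h4)
      · exact Or.inl h3
    · rintro ⟨h1, h2 | h2⟩
      · exact ⟨h1, Dvd.dvd.mul_left h2 4, by positivity⟩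
      · refine ⟨h1, ?_, by positivity⟩
        rw [h2.1]
        exact Dvd.dvd.mul_right (by norm_num) _

theorem two_mem_RS {m : ℤ} (hm : Squarefree m) : 2 ∈ RS m ↔ m % 4 ≠ 1 := by
  rw [mem_RS hm]
  constructor
  · rintro ⟨-, h | h⟩
    · have : (2 : ℤ) ∣ m := by exact_mod_cast h
      omega
    · exact h.2
  · intro h
    exact ⟨Nat.prime_two, Or.inr ⟨rfl, h⟩⟩

theorem not_four {m : ℤ} (hm : Squarefree m) : m % 4 ≠ 0 := by
  intro h
  have h1 : (2 : ℤ) * 2 ∣ m := by omega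
  have := Int.isUnit_iff.1 (hm 2 h1)
  omega

/-! ### `vq` -/

theorem vq_odd {m : ℤ} {q : ℕ} (h2 : q ≠ 2) : vq m q = ep q * q := by
  unfold vq ep
  rw [if_neg h2]
  split_ifs <;> ring

theorem pd_odd {m : ℤ} {q : ℕ} (h2 : q ≠ 2) : pd m q = ep q * q := by
  unfold pd ep
  rw [if_neg h2]
  split_ifs <;> ring

theorem vq_mod4 {m : ℤ} {q : ℕ} (hq : q.Prime) (h2 : q ≠ 2) : vq m q % 4 = 1 := by
  have ho : q % 2 = 1 := Nat.odd_iff.1 (odd_of_prime hq h2)
  unfold vq
  rw [if_neg h2]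
  split_ifs <;> omega

theorem nd_vq {m : ℤ} {p q : ℕ} (hp : p.Prime) (hp2 : p ≠ 2) (hq : q.Prime) (hne : p ≠ q) :
    ¬ (p : ℤ) ∣ vq m q := by
  by_cases h2 : q = 2
  · subst h2
    unfold vq
    rw [if_pos rfl]
    split_ifs
    · exact nd_neg (nd_one hp)
    · exact nd_prime hp Nat.prime_two hp2
    · exact nd_neg (nd_prime hp Nat.prime_two hp2)
  · rw [vq_odd h2]
    exact nd_mul hp (nd_ep hp q) (nd_prime hp hq hne)

theorem natAbs_vq {m : ℤ} (hm : Squarefree m) {q : ℕ} (h : q ∈ RS m) :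
    (vq m q).natAbs = if (q : ℤ) ∣ m then q else 1 := by
  have hq := (mem_RS hm).1 h
  by_cases h2 : q = 2
  · subst h2
    have h4 := (two_mem_RS hm).1 h
    have h0 := not_four hm
    have hc : ((2 : ℕ) : ℤ) = 2 := rfl
    rw [hc]
    unfold vq
    rw [if_pos rfl]
    by_cases h3 : m % 4 = 3
    · have hd : ¬ (2 : ℤ) ∣ m := by omega
      rw [if_pos h3, if_neg hd]; rfl
    · have hd : (2 : ℤ) ∣ m := by omega
      by_cases h5 : m % 8 = 2
      · rw [if_neg h3, if_pos h5, if_pos hd]; rfl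
      · rw [if_neg h3, if_neg h5, if_pos hd]; rfl
  · have hd : (q : ℤ) ∣ m := by
      rcases hq.2 with h | h
      · exact h
      · exact absurd h.1 h2
    rw [if_pos hd, vq_odd h2, Int.natAbs_mul]
    unfold ep
    split_ifs <;> simp

theorem prod_mod4 (s : Finset ℕ) (f : ℕ → ℤ) (h : ∀ q ∈ s, f q % 4 = 1) :
    (∏ q ∈ s, f q) % 4 = 1 := by
  induction s using Finset.induction_on with
  | empty => simp
  | insert a s ha ih =>
    rw [Finset.prod_insert ha, Int.mul_emod, h a (Finset.mem_insert_self _ _),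
      ih fun q hq => h q (Finset.mem_insert_of_mem hq)]
    rfl

theorem prod_natAbs {m : ℤ} (hm : Squarefree m) : (∏ q ∈ RS m, vq m q).natAbs = m.natAbs := by
  have e : (∏ q ∈ RS m, vq m q).natAbs = ∏ q ∈ RS m, (vq m q).natAbs :=
    map_prod Int.natAbsHom _ _
  rw [e, Finset.prod_congr rfl fun q hq => natAbs_vq hm hq, ← Finset.prod_filter]
  have e2 : (RS m).filter (fun q : ℕ => (q : ℤ) ∣ m) = m.natAbs.primeFactors := by
    ext q
    rw [Finset.mem_filter, mem_RS hm, Nat.mem_primeFactors, Int.natCast_dvd]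
    constructor
    · rintro ⟨⟨h1, -⟩, h2⟩; exact ⟨h1, h2, Int.natAbs_ne_zero.2 hm.ne_zero⟩
    · rintro ⟨h1, h2, -⟩; exact ⟨⟨h1, Or.inl h2⟩, h2⟩
  rw [e2]
  exact Nat.prod_primeFactors_of_squarefree (Int.squarefree_natAbs.2 hm)

/-- the product of the signed primes -/
theorem prod_vq {m : ℤ} (hm : Squarefree m) : ∏ q ∈ RS m, vq m q = m := by
  have h0 := not_four hm
  have hna := prod_natAbs hm
  have hrest : (∏ q ∈ (RS m).erase 2, vq m q) % 4 = 1 := by
    refine prod_mod4 _ _ ?_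
    intro q hq
    have h1 := Finset.mem_erase.1 hq
    exact vq_mod4 ((mem_RS hm).1 h1.2).1 h1.1
  by_cases h1 : m % 4 = 1
  · have h2 : 2 ∉ RS m := fun h => (two_mem_RS hm).1 h h1
    rw [Finset.erase_eq_of_notMem h2] at hrest
    rcases Int.natAbs_eq_natAbs_iff.1 hna with h | h
    · exact h
    · rw [h] at hrest; omega
  · have h2 : 2 ∈ RS m := (two_mem_RS hm).2 h1
    have e := Finset.mul_prod_erase (RS m) (fun q => vq m q) h2
    generalize hP : ∏ q ∈ (RS m).erase 2, vq m q = P at e hrest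
    have hv : vq m 2 = if m % 4 = 3 then -1 else if m % 8 = 2 then 2 else -2 := by
      unfold vq; rw [if_pos rfl]
    rcases Int.natAbs_eq_natAbs_iff.1 hna with h | h
    · exact h
    · rw [h, hv] at e
      split_ifs at e <;> omega


/-! ### sums and products over filters -/

theorem sum_filter_one (s : Finset ℕ) (g x : ℕ → ZMod 2) :
    ∑ q ∈ s, g q * x q = ∑ q ∈ s.filter (fun q => x q = 1), g q := by
  rw [Finset.sum_filter]
  refine Finset.sum_congr rfl ?_
  intro q _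
  rcases z2 (x q) with h | h
  · rw [h, mul_zero, if_neg (by decide)]
  · rw [h, mul_one, if_pos rfl]

theorem erase_filter (s : Finset ℕ) (P : ℕ → Prop) [DecidablePred P] (p : ℕ) :
    (s.filter P).erase p = (s.erase p).filter P := by
  ext a
  simp only [Finset.mem_erase, Finset.mem_filter]
  tauto

theorem up_prod {p : ℕ} (hp : p.Prime) (s : Finset ℕ) (f : ℕ → ℤ) (ε : ℤ)
    (hf : ∀ q ∈ s, q ≠ p → ¬ (p : ℤ) ∣ f q) (hfp : f p = ε * p) :
    up p (∏ q ∈ s, f q) = (if p ∈ s then ε else 1) * ∏ q ∈ s.erase p, f q ∧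
      ((p : ℤ) ∣ ∏ q ∈ s, f q ↔ p ∈ s) := by
  by_cases h : p ∈ s
  · have e := Finset.mul_prod_erase s f h
    have hd : (p : ℤ) ∣ ∏ q ∈ s, f q := by
      rw [← e, hfp]
      exact Dvd.dvd.mul_right (Dvd.intro_left _ rfl) _
    refine ⟨?_, ⟨fun _ => h, fun _ => hd⟩⟩
    unfold up
    rw [if_pos hd, if_pos h, ← e, hfp]
    have hp0 : (p : ℤ) ≠ 0 := by exact_mod_cast hp.ne_zero
    rw [show ε * (p : ℤ) * ∏ q ∈ s.erase p, f q = (ε * ∏ q ∈ s.erase p, f q) * p by ring]
    exact Int.mul_ediv_cancel _ hp0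
  · have hd : ¬ (p : ℤ) ∣ ∏ q ∈ s, f q := by
      refine nd_prod hp s f ?_
      intro q hq
      exact hf q hq (fun hh => h (hh ▸ hq))
    refine ⟨?_, ⟨fun h' => absurd h' hd, fun h' => absurd h' h⟩⟩
    unfold up
    rw [if_neg hd, if_neg h, Finset.erase_eq_of_notMem h, one_mul]

/-! ### entries of the system -/

theorem lam_eq (p : ℕ) (n : ℤ) : lam p n = aj p (up p n) := rfl

theorem aj_four {p : ℕ} (hp : p.Prime) (h2 : p ≠ 2) (a : ℤ) (ha : ¬ (p : ℤ) ∣ a) :
    aj p (4 * a) = aj p a := by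
  have h := nd_prime hp Nat.prime_two h2
  have h' : ¬ (p : ℤ) ∣ 2 := by exact_mod_cast h
  rw [show (4 : ℤ) * a = 2 * (2 * a) by ring, aj_mul hp h' (nd_mul hp h' ha), aj_mul hp h' ha,
    ← add_assoc, z2_add_self, zero_add]

theorem pd_two {m : ℤ} : pd m 2 = 4 * vq m 2 := by
  unfold pd vq
  rw [if_pos rfl, if_pos rfl]
  split_ifs <;> rfl

theorem lS_odd {m : ℤ} {p r : ℕ} (hp : p.Prime) (hp2 : p ≠ 2) (hr : r.Prime) (hne : p ≠ r) :
    lS m r p = aj p (vq m r) := by
  unfold lS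
  rw [if_neg hp2]
  show aj p (pd m r) = _
  by_cases h2 : r = 2
  · subst h2
    rw [pd_two, aj_four hp hp2 _ (nd_vq hp hp2 hr hne)]
  · rw [pd_odd h2, vq_odd h2]

theorem lS_two {m : ℤ} {r : ℕ} (hr2 : r ≠ 2) : lS m r 2 = f8 (vq m r) := by
  unfold lS
  rw [if_pos rfl, pd_odd hr2, vq_odd hr2]
  rfl

theorem f8_neg_one : f8 (-1) = 0 := by decide

theorem f8_ep {q : ℕ} (hq : q % 2 = 1) : f8 (ep q * q) = f8 q := by
  rw [f8_mul (by unfold ep; split_ifs <;> decide) (by omega)]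
  unfold ep
  split_ifs
  · rw [show f8 1 = 0 by decide, zero_add]
  · rw [f8_neg_one, zero_add]

theorem al_odd {m : ℤ} {q : ℕ} (hq : q.Prime) (h2 : q ≠ 2) : al m q = f4 q := by
  have ho : q % 2 = 1 := Nat.odd_iff.1 (odd_of_prime hq h2)
  have hp := hq.pos
  unfold al pd f4
  rw [if_neg h2]
  rcases cast_mod4 ho with h | h
  · rw [if_pos h.2, if_neg (by omega), if_neg (by omega)]
  · have h3 : ¬ q % 4 = 1 := by omega
    have h4 : -(q : ℤ) < 0 := by omega
    rw [if_neg h3, if_pos h4, if_pos h.1]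

theorem al_two {m : ℤ} : al m 2 = if m % 4 = 3 then 1 else if m % 8 = 2 then 0 else 1 := by
  unfold al pd
  rw [if_pos rfl]
  split_ifs <;> first | rfl | omega

theorem nu_odd {p : ℕ} (h2 : p ≠ 2) : nu p = aj p 17 := by
  unfold nu
  rw [if_neg h2]
  rfl

theorem nu_two : nu 2 = 0 := rfl

theorem p17 : Nat.Prime 17 := by norm_num

theorem vq17 {m : ℤ} : vq m 17 = 17 := by
  unfold vq
  norm_num

/-- `lS m p r` is the symbol of `r` at `p` -/
theorem lS_rec {m : ℤ} {p r : ℕ} (hp : p.Prime) (hp2 : p ≠ 2) (hr : r.Prime) (hne : p ≠ r) :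
    lS m p r = aj p r := by
  have ho : p % 2 = 1 := Nat.odd_iff.1 (odd_of_prime hp hp2)
  by_cases h2 : r = 2
  · subst h2
    rw [lS_two hp2, vq_odd hp2, f8_ep ho]
    exact (aj_two hp hp2).symm
  · rw [lS_odd hr h2 hp (Ne.symm hne), vq_odd hp2, aj_rec hr hp h2 hp2 (Ne.symm hne)]

theorem rel_odd {m : ℤ} {p q : ℕ} (hp : p.Prime) (hp2 : p ≠ 2) (hq : q.Prime) (hq2 : q ≠ 2)
    (hne : p ≠ q) : lS m q p + lS m p q = al m p * al m q := by
  have hop : p % 2 = 1 := Nat.odd_iff.1 (odd_of_prime hp hp2)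
  rw [lS_rec hq hq2 hp (Ne.symm hne), lS_odd hq hq2 hp (Ne.symm hne), vq_odd hp2,
    aj_mul hq (nd_ep hq p) (nd_prime hq hp (Ne.symm hne)), aj_ep hq hq2 hop, al_odd hp hp2,
    al_odd hq hq2]
  have := z2_add_self (aj q p)
  linear_combination this

/-- weights of the rows -/
def w (m : ℤ) (p : ℕ) : ZMod 2 := if p = 2 ∧ m % 4 = 3 then 0 else 1

theorem rel_two {m : ℤ} {q : ℕ} (hq : q.Prime) (hq2 : q ≠ 2) :
    w m 2 * lS m q 2 + lS m 2 q = al m 2 * al m q := by
  have hoq : q % 2 = 1 := Nat.odd_iff.1 (odd_of_prime hq hq2)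
  rw [lS_two hq2, vq_odd hq2, f8_ep hoq, lS_odd hq hq2 Nat.prime_two hq2, al_two, al_odd hq hq2]
  unfold w vq
  rw [if_pos rfl]
  by_cases h3 : m % 4 = 3
  · rw [if_pos ⟨rfl, h3⟩, if_pos h3, if_pos h3, aj_neg_one hq hq2]
    ring
  · rw [if_neg (fun h => h3 h.2), if_neg h3, if_neg h3]
    by_cases h8 : m % 8 = 2
    · rw [if_pos h8, if_pos h8, aj_two hq hq2]
      have := z2_add_self (f8 q)
      linear_combination this
    · rw [if_neg h8, if_neg h8]
      have h' : ¬ (q : ℤ) ∣ 2 := by exact_mod_cast nd_prime hq Nat.prime_two hq2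
      rw [show (-2 : ℤ) = -1 * 2 by ring, aj_mul hq (nd_neg (nd_one hq)) h', aj_neg_one hq hq2,
        aj_two hq hq2]
      have := z2_add_self (f8 q)
      linear_combination this

theorem w_odd {m : ℤ} {p : ℕ} (h : p ≠ 2) : w m p = 1 := by
  unfold w
  rw [if_neg (fun hh => h hh.1)]

theorem rel {m : ℤ} (hm : Squarefree m) {p q : ℕ} (hp : p ∈ RS m) (hq : q ∈ RS m) (hne : p ≠ q) :
    w m p * lS m q p + w m q * lS m p q = al m p * al m q := by
  have hpp := ((mem_RS hm).1 hp).1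
  have hqq := ((mem_RS hm).1 hq).1
  by_cases hp2 : p = 2
  · subst hp2
    have := rel_two (m := m) hqq (Ne.symm hne)
    rw [w_odd (Ne.symm hne), one_mul]
    exact this
  · by_cases hq2 : q = 2
    · subst hq2
      have := rel_two (m := m) hpp hp2
      rw [w_odd hp2, one_mul, add_comm, this, mul_comm]
    · rw [w_odd hp2, w_odd hq2, one_mul, one_mul]
      exact rel_odd hpp hp2 hqq hq2 hne

/-! ### the matrix -/

theorem LL_diag (m : ℤ) (p : ℕ) : LL m p p = ∑ r ∈ (RS m).erase p, lS m r p := by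
  unfold LL; rw [if_pos rfl]

theorem LL_off {m : ℤ} {p q : ℕ} (h : p ≠ q) : LL m p q = lS m q p := by
  unfold LL; rw [if_neg h]

/-- row sums are zero -/
theorem row_zero {m : ℤ} {p : ℕ} (hp : p ∈ RS m) : ∑ q ∈ RS m, LL m p q = 0 := by
  rw [← Finset.add_sum_erase _ _ hp, LL_diag]
  have : ∑ q ∈ (RS m).erase p, LL m p q = ∑ r ∈ (RS m).erase p, lS m r p := by
    refine Finset.sum_congr rfl ?_
    intro q hq
    exact LL_off (Ne.symm (Finset.mem_erase.1 hq).1)
  rw [this, z2_add_self]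

/-- weighted column sums -/
theorem col_sum {m : ℤ} (hm : Squarefree m) {q : ℕ} (hq : q ∈ RS m) :
    ∑ p ∈ RS m, w m p * LL m p q = al m q * ∑ p ∈ (RS m).erase q, al m p := by
  rw [← Finset.add_sum_erase _ _ hq, LL_diag, Finset.mul_sum, ← Finset.sum_add_distrib,
    Finset.mul_sum]
  refine Finset.sum_congr rfl ?_
  intro p hp
  have h1 := Finset.mem_erase.1 hp
  rw [LL_off h1.1]
  exact rel hm hq h1.2 (Ne.symm h1.1)

/-- the diagonal at an odd prime -/
theorem diag_odd {m : ℤ} (hm : Squarefree m) {p : ℕ} (hp : p ∈ RS m) (hp2 : p ≠ 2) :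
    LL m p p = lam p m + f4 p := by
  have hpp := ((mem_RS hm).1 hp).1
  have ho : p % 2 = 1 := Nat.odd_iff.1 (odd_of_prime hpp hp2)
  have h1 := up_prod hpp (RS m) (fun q => vq m q) (ep p)
    (fun q hq hne => nd_vq hpp hp2 ((mem_RS hm).1 hq).1 (Ne.symm hne)) (vq_odd hp2)
  rw [prod_vq hm, if_pos hp] at h1
  have hnd : ∀ q ∈ (RS m).erase p, ¬ (p : ℤ) ∣ vq m q := fun q hq =>
    nd_vq hpp hp2 ((mem_RS hm).1 (Finset.mem_erase.1 hq).2).1 (Ne.symm (Finset.mem_erase.1 hq).1)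
  rw [lam_eq, h1.1, aj_mul hpp (nd_ep hpp p) (nd_prod hpp _ _ hnd), aj_ep hpp hp2 ho,
    aj_prod hpp _ _ hnd, LL_diag, z2_mul_self]
  have e : ∑ r ∈ (RS m).erase p, lS m r p = ∑ q ∈ (RS m).erase p, aj p (vq m q) := by
    refine Finset.sum_congr rfl ?_
    intro q hq
    exact lS_odd hpp hp2 ((mem_RS hm).1 (Finset.mem_erase.1 hq).2).1
      (Ne.symm (Finset.mem_erase.1 hq).1)
  rw [e]
  have := z2_add_self (f4 (p : ℤ))
  linear_combination (-1 : ZMod 2) * this


/-! ### a solution of the system -/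

/-- the sign of a product -/
theorem sign_prod (s : Finset ℕ) (f : ℕ → ℤ) (h : ∀ q ∈ s, f q ≠ 0) :
    (if ∏ q ∈ s, f q < 0 then (1 : ZMod 2) else 0) = ∑ q ∈ s, if f q < 0 then (1 : ZMod 2) else 0 := by
  induction s using Finset.induction_on with
  | empty => simp
  | insert a s ha ih =>
    rw [Finset.prod_insert ha, Finset.sum_insert ha,
      ← ih fun q hq => h q (Finset.mem_insert_of_mem hq)]
    have h1 := h a (Finset.mem_insert_self _ _)
    have h2 : ∏ q ∈ s, f q ≠ 0 := Finset.prod_ne_zero_iff.2 fun q hq =>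
      h q (Finset.mem_insert_of_mem hq)
    generalize ∏ q ∈ s, f q = P at h2 ⊢
    generalize f a = b at h1 ⊢
    rcases lt_or_gt_of_ne h1 with h1 | h1 <;> rcases lt_or_gt_of_ne h2 with h2 | h2
    · rw [if_neg (not_lt.2 (mul_pos_of_neg_of_neg h1 h2).le), if_pos h1, if_pos h2]; decide
    · rw [if_pos (mul_neg_of_neg_of_pos h1 h2), if_pos h1, if_neg (not_lt.2 h2.le)]; decide
    · rw [if_pos (mul_neg_of_pos_of_neg h1 h2), if_neg (not_lt.2 h1.le), if_pos h2]; decide
    · rw [if_neg (not_lt.2 (mul_pos h1 h2).le), if_neg (not_lt.2 h1.le), if_neg (not_lt.2 h2.le)]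
      decide

theorem vq_neg_iff {m : ℤ} {q : ℕ} : (if vq m q < 0 then (1 : ZMod 2) else 0) = al m q := by
  by_cases h2 : q = 2
  · subst h2
    rw [al_two]
    unfold vq
    rw [if_pos rfl]
    split_ifs <;> first | rfl | omega
  · unfold al
    rw [pd_odd h2, vq_odd h2]

theorem vq_ne {m : ℤ} {q : ℕ} (hq : q.Prime) : vq m q ≠ 0 := by
  by_cases h2 : q = 2
  · subst h2
    unfold vq
    rw [if_pos rfl]
    split_ifs <;> decide
  · have ho := vq_mod4 (m := m) hq h2
    intro h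
    rw [h] at ho
    omega

section solution

variable {m : ℤ} {x y : ℕ → ZMod 2}

/-- the hypotheses -/
structure Sol (m : ℤ) (x y : ℕ → ZMod 2) : Prop where
  hm : Squarefree m
  x17 : x 17 = 0
  row : ∀ p ∈ (RS m).erase 17, nu p * x p + ∑ q ∈ RS m, LL m p q * y q = 0
  col : ∀ q ∈ RS m, ∑ p ∈ RS m, LL m p q * x p + al m q * y q = 0

theorem Sol.sum_al (h : Sol m x y) : ∑ q ∈ RS m, al m q * y q = 0 := by
  have h1 : ∑ q ∈ RS m, (∑ p ∈ RS m, LL m p q * x p + al m q * y q) = 0 :=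
    Finset.sum_eq_zero h.col
  rw [Finset.sum_add_distrib, Finset.sum_comm] at h1
  have h2 : ∑ p ∈ RS m, ∑ q ∈ RS m, LL m p q * x p = 0 := by
    refine Finset.sum_eq_zero ?_
    intro p hp
    rw [← Finset.sum_mul, row_zero hp, zero_mul]
  rw [h2, zero_add] at h1
  exact h1

theorem Sol.total (h : Sol m x y) :
    ∑ p ∈ RS m, w m p * ∑ q ∈ RS m, LL m p q * y q = 0 := by
  have e : ∑ p ∈ RS m, w m p * ∑ q ∈ RS m, LL m p q * y q =
      ∑ q ∈ RS m, (∑ p ∈ RS m, w m p * LL m p q) * y q := by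
    simp_rw [Finset.mul_sum, Finset.sum_mul]
    rw [Finset.sum_comm]
    refine Finset.sum_congr rfl fun q _ => Finset.sum_congr rfl fun p _ => ?_
    ring
  rw [e]
  have e2 : ∑ q ∈ RS m, (∑ p ∈ RS m, w m p * LL m p q) * y q =
      ∑ q ∈ RS m, ((∑ p ∈ RS m, al m p) + 1) * (al m q * y q) := by
    refine Finset.sum_congr rfl fun q hq => ?_
    rw [col_sum h.hm hq]
    have e3 := Finset.add_sum_erase (RS m) (fun p => al m p) hq
    rw [← e3]
    have h1 := z2_add_self (al m q)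
    have h2 := z2_mul_self (al m q)
    linear_combination (-(y q)) * h2 - (y q) * h1
  rw [e2, ← Finset.mul_sum, h.sum_al, mul_zero]


theorem lS_nu {p : ℕ} (hp : p.Prime) (hne : p ≠ 17) : lS m 17 p = nu p := by
  by_cases h2 : p = 2
  · subst h2
    rw [lS_two (by norm_num), vq17, nu_two]
    decide
  · rw [lS_odd hp h2 p17 hne, vq17, nu_odd h2]

theorem Sol.nu_sum (h : Sol m x y) : ∑ p ∈ RS m, nu p * x p = 0 := by
  by_cases h17 : 17 ∈ RS m
  · have h1 := h.col 17 h17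
    have h2 : al m 17 = 0 := by
      rw [al_odd p17 (by norm_num)]; decide
    rw [h2, zero_mul, add_zero] at h1
    rw [← h1]
    refine Finset.sum_congr rfl fun p hp => ?_
    by_cases hne : p = 17
    · subst hne
      rw [h.x17, mul_zero, mul_zero]
    · rw [LL_off hne, lS_nu ((mem_RS h.hm).1 hp).1 hne]
  · have h1 := h.total
    rw [← h1]
    refine Finset.sum_congr rfl fun p hp => ?_
    have hne : p ≠ 17 := fun hh => h17 (hh ▸ hp)
    have h2 := z2_eq_of_add (h.row p (Finset.mem_erase.2 ⟨hne, hp⟩))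
    rw [← h2]
    by_cases hp2 : p = 2
    · subst hp2
      rw [nu_two, zero_mul, mul_zero]
    · rw [w_odd hp2, one_mul]

theorem Sol.row' (h : Sol m x y) {p : ℕ} (hp : p ∈ RS m) :
    nu p * x p + ∑ q ∈ RS m, LL m p q * y q = 0 := by
  by_cases hne : p = 17
  · subst hne
    rw [h.x17, mul_zero, zero_add]
    have h1 := h.total
    rw [← Finset.add_sum_erase _ _ hp, w_odd (by norm_num), one_mul] at h1
    have h2 := h.nu_sum
    rw [← Finset.add_sum_erase _ _ hp, h.x17, mul_zero, zero_add] at h2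
    have h3 : ∑ p ∈ (RS m).erase 17, w m p * ∑ q ∈ RS m, LL m p q * y q =
        ∑ p ∈ (RS m).erase 17, nu p * x p := by
      refine Finset.sum_congr rfl fun p hp' => ?_
      have h4 := z2_eq_of_add (h.row p hp')
      rw [← h4]
      by_cases hp2 : p = 2
      · subst hp2
        rw [nu_two, zero_mul, mul_zero]
      · rw [w_odd hp2, one_mul]
    rw [h3, h2, add_zero] at h1
    exact h1
  · exact h.row p (Finset.mem_erase.2 ⟨hne, hp⟩)

/-- the first component of the class -/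
noncomputable def U (m : ℤ) (x : ℕ → ZMod 2) : ℤ :=
  ∏ q ∈ (RS m).filter (fun q => x q = 1), (q : ℤ)

/-- the second component of the class -/
noncomputable def Vv (m : ℤ) (y : ℕ → ZMod 2) : ℤ :=
  ∏ q ∈ (RS m).filter (fun q => y q = 1), vq m q

theorem U_pos (hm : Squarefree m) : 0 < U m x := by
  unfold U
  refine Finset.prod_pos ?_
  intro q hq
  have := ((mem_RS hm).1 (Finset.mem_filter.1 hq).1).1.pos
  exact_mod_cast this

theorem U_up (hm : Squarefree m) {p : ℕ} (hp : p.Prime) :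
    up p (U m x) = ∏ q ∈ ((RS m).erase p).filter (fun q => x q = 1), (q : ℤ) ∧
      ((p : ℤ) ∣ U m x ↔ p ∈ RS m ∧ x p = 1) := by
  have h1 := up_prod hp ((RS m).filter (fun q => x q = 1)) (fun q => (q : ℤ)) 1
    (fun q hq hne => nd_prime hp ((mem_RS hm).1 (Finset.mem_filter.1 hq).1).1 (Ne.symm hne))
    (by rw [one_mul])
  simp only [Finset.mem_filter, erase_filter, ite_self, one_mul] at h1
  exact h1

theorem U_lam (hm : Squarefree m) {p : ℕ} (hp : p.Prime) :
    lam p (U m x) = ∑ q ∈ (RS m).erase p, aj p q * x q := by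
  rw [lam_eq, (U_up hm hp).1, aj_prod hp, sum_filter_one]
  intro q hq
  have h1 := Finset.mem_erase.1 (Finset.mem_filter.1 hq).1
  exact nd_prime hp ((mem_RS hm).1 h1.2).1 (Ne.symm h1.1)

theorem V_up (hm : Squarefree m) {p : ℕ} (hp : p.Prime) (hp2 : p ≠ 2) :
    up p (Vv m y) = (if p ∈ RS m ∧ y p = 1 then ep p else 1) *
      ∏ q ∈ ((RS m).erase p).filter (fun q => y q = 1), vq m q ∧
      ((p : ℤ) ∣ Vv m y ↔ p ∈ RS m ∧ y p = 1) := by
  have h1 := up_prod hp ((RS m).filter (fun q => y q = 1)) (fun q => vq m q) (ep p)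
    (fun q hq hne => nd_vq hp hp2 ((mem_RS hm).1 (Finset.mem_filter.1 hq).1).1 (Ne.symm hne))
    (vq_odd hp2)
  simp only [Finset.mem_filter, erase_filter] at h1
  exact h1

theorem V_lam (hm : Squarefree m) {p : ℕ} (hp : p ∈ RS m) (hp2 : p ≠ 2) :
    lam p (Vv m y) = f4 p * y p + ∑ q ∈ (RS m).erase p, lS m q p * y q := by
  have hpp := ((mem_RS hm).1 hp).1
  have ho : p % 2 = 1 := Nat.odd_iff.1 (odd_of_prime hpp hp2)
  have hnd : ∀ q ∈ ((RS m).erase p).filter (fun q => y q = 1), ¬ (p : ℤ) ∣ vq m q := by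
    intro q hq
    have h1 := Finset.mem_erase.1 (Finset.mem_filter.1 hq).1
    exact nd_vq hpp hp2 ((mem_RS hm).1 h1.2).1 (Ne.symm h1.1)
  have e : ∑ q ∈ (RS m).erase p, lS m q p * y q =
      ∑ q ∈ ((RS m).erase p).filter (fun q => y q = 1), aj p (vq m q) := by
    rw [← sum_filter_one]
    refine Finset.sum_congr rfl fun q hq => ?_
    have h1 := Finset.mem_erase.1 hq
    rw [lS_odd hpp hp2 ((mem_RS hm).1 h1.2).1 (Ne.symm h1.1)]
  rw [lam_eq, (V_up hm hpp hp2).1, aj_mul hpp _ (nd_prod hpp _ _ hnd), aj_prod hpp _ _ hnd, e]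
  · congr 1
    rcases z2 (y p) with hy | hy
    · rw [hy, mul_zero, if_neg (fun hh => absurd hh.2 (by decide)), aj_one]
    · rw [hy, mul_one, if_pos ⟨hp, rfl⟩, aj_ep hpp hp2 ho, z2_mul_self]
  · split_ifs
    · exact nd_ep hpp p
    · exact nd_one hpp

/-- the conditions at the odd primes dividing `m` -/
theorem Sol.lamU (h : Sol m x y) {p : ℕ} (hp : p ∈ RS m) (hp2 : p ≠ 2) :
    lam p (U m x) = LL m p p * x p + f4 p * y p := by
  have hpp := ((mem_RS h.hm).1 hp).1
  have h1 := h.col p hp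
  rw [← Finset.add_sum_erase _ _ hp, al_odd hpp hp2] at h1
  have e : ∑ r ∈ (RS m).erase p, LL m r p * x r = lam p (U m x) := by
    rw [U_lam h.hm hpp]
    refine Finset.sum_congr rfl fun r hr => ?_
    have h2 := Finset.mem_erase.1 hr
    rw [LL_off h2.1, lS_rec hpp hp2 ((mem_RS h.hm).1 h2.2).1 (Ne.symm h2.1)]
  rw [e] at h1
  have h2 := z2_add_self (lam p (U m x))
  have h3 := z2_add_self (LL m p p * x p + f4 p * y p)
  linear_combination h1 * (-1) + h2

theorem Sol.lamV (h : Sol m x y) {p : ℕ} (hp : p ∈ RS m) (hp2 : p ≠ 2) :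
    lam p (Vv m y) = nu p * x p + lam p m * y p := by
  have h1 := h.row' hp
  rw [← Finset.add_sum_erase _ _ hp] at h1
  have e : ∑ q ∈ (RS m).erase p, LL m p q * y q = ∑ q ∈ (RS m).erase p, lS m q p * y q := by
    refine Finset.sum_congr rfl fun r hr => ?_
    have h2 := Finset.mem_erase.1 hr
    rw [LL_off (Ne.symm h2.1)]
  rw [e, diag_odd h.hm hp hp2] at h1
  rw [V_lam h.hm hp hp2]
  have h2 := z2_add_self (nu p * x p)
  have h3 := z2_add_self (lam p m * y p)
  linear_combination h1 - h2 - h3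


theorem Sol.V_pos (h : Sol m x y) : 0 < Vv m y := by
  have h1 := sign_prod ((RS m).filter (fun q => y q = 1)) (fun q => vq m q)
    (fun q hq => vq_ne ((mem_RS h.hm).1 (Finset.mem_filter.1 hq).1).1)
  have h2 : ∑ q ∈ (RS m).filter (fun q => y q = 1), (if vq m q < 0 then (1 : ZMod 2) else 0) = 0 := by
    rw [Finset.sum_congr rfl (fun q _ => vq_neg_iff), ← sum_filter_one]
    exact h.sum_al
  rw [h2] at h1
  have h3 : Vv m y ≠ 0 := Finset.prod_ne_zero_iff.2 fun q hq =>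
    vq_ne ((mem_RS h.hm).1 (Finset.mem_filter.1 hq).1).1
  have h4 : ¬ Vv m y < 0 := by
    intro h4
    unfold Vv at h4
    rw [if_pos h4] at h1
    exact absurd h1 (by decide)
  omega

theorem V_dvd (hm : Squarefree m) : Vv m y ∣ m := by
  have h1 : Vv m y ∣ ∏ q ∈ RS m, vq m q :=
    Finset.prod_dvd_prod_of_subset _ _ _ (Finset.filter_subset _ _)
  rwa [prod_vq hm] at h1

theorem V_sqf (hm : Squarefree m) : Squarefree (Vv m y) :=
  Squarefree.squarefree_of_dvd (V_dvd hm) hm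

theorem U_sqf (hm : Squarefree m) : Squarefree (U m x) := by
  unfold U
  apply Finset.squarefree_prod_of_pairwise_isCoprime
  · intro p hp q hq hpq
    have hp' := ((mem_RS hm).1 (Finset.mem_filter.1 hp).1).1
    have hq' := ((mem_RS hm).1 (Finset.mem_filter.1 hq).1).1
    exact (Nat.isCoprime_iff_coprime.2 ((Nat.coprime_primes hp' hq').2 hpq)).isRelPrime
  · intro p hp
    have hp' := ((mem_RS hm).1 (Finset.mem_filter.1 hp).1).1
    exact (Nat.prime_iff_prime_int.1 hp').squarefree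

theorem ind_U (hm : Squarefree m) {p : ℕ} (hp : p ∈ RS m) : ind p (U m x) = x p := by
  have h1 := (U_up (x := x) hm ((mem_RS hm).1 hp).1).2
  unfold ind
  rcases z2 (x p) with hx | hx
  · rw [if_neg (fun h => absurd ((h1.1 h).2) (by rw [hx]; decide)), hx]
  · rw [if_pos (h1.2 ⟨hp, hx⟩), hx]

theorem ind_V (hm : Squarefree m) {p : ℕ} (hp : p ∈ RS m) (hp2 : p ≠ 2) :
    ind p (Vv m y) = y p := by
  have h1 := (V_up (y := y) hm ((mem_RS hm).1 hp).1 hp2).2
  unfold ind
  rcases z2 (y p) with hx | hx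
  · rw [if_neg (fun h => absurd ((h1.1 h).2) (by rw [hx]; decide)), hx]
  · rw [if_pos (h1.2 ⟨hp, hx⟩), hx]

theorem lam_neg_one {p : ℕ} (hp : p.Prime) (hp2 : p ≠ 2) : lam p (-1) = f4 p := by
  rw [lam_eq]
  unfold up
  rw [if_neg (nd_neg (nd_one hp)), aj_neg_one hp hp2]

theorem lam_neg (hm : Squarefree m) {p : ℕ} (hp : p.Prime) (hp2 : p ≠ 2) (hd : (p : ℤ) ∣ m) :
    lam p (-m) = lam p m + f4 p := by
  rw [lam_eq, lam_eq]
  unfold up
  rw [if_pos ((dvd_neg).2 hd), if_pos hd, Int.neg_ediv_of_dvd hd, ← neg_one_mul, aj_mul hp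
    (nd_neg (nd_one hp)), aj_neg_one hp hp2, add_comm]
  rintro ⟨k, hk⟩
  obtain ⟨n, hn⟩ := hd
  have hp0 : (p : ℤ) ≠ 0 := by exact_mod_cast hp.ne_zero
  rw [hn, Int.mul_ediv_cancel_left _ hp0] at hk
  have h1 : (p : ℤ) * p ∣ m := ⟨k, by rw [hn, hk]; ring⟩
  exact (Nat.prime_iff_prime_int.1 hp).not_isUnit (hm _ h1)

theorem lam17 {p : ℕ} (hp : p.Prime) (hp2 : p ≠ 2) (hne : p ≠ 17) : lam p 17 = nu p := by
  have h1 : ¬ (p : ℤ) ∣ 17 := by exact_mod_cast nd_prime hp p17 hne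
  rw [lam_eq, nu_odd hp2]
  unfold up
  rw [if_neg h1]

theorem aj17 {q : ℕ} (hq : q.Prime) (hne : q ≠ 17) : aj 17 q = nu q := by
  by_cases h2 : q = 2
  · subst h2
    have := aj_two p17 (by norm_num)
    rw [nu_two]
    calc aj 17 ((2 : ℕ) : ℤ) = aj 17 2 := rfl
      _ = f8 (17 : ℕ) := this
      _ = 0 := by decide
  · rw [nu_odd h2, ← aj_rec hq p17 h2 (by norm_num) hne]
    have : ep 17 = 1 := by unfold ep; norm_num
    rw [this, one_mul]
    rfl

theorem Sol.lam17U (h : Sol m x y) : lam 17 (U m x) = 0 := by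
  rw [U_lam h.hm p17, ← h.nu_sum]
  have e : ∑ p ∈ RS m, nu p * x p = ∑ p ∈ (RS m).erase 17, nu p * x p := by
    by_cases h17 : 17 ∈ RS m
    · rw [← Finset.add_sum_erase _ _ h17, h.x17, mul_zero, zero_add]
    · rw [Finset.erase_eq_of_notMem h17]
  rw [e]
  refine Finset.sum_congr rfl fun q hq => ?_
  have h1 := Finset.mem_erase.1 hq
  rw [aj17 ((mem_RS h.hm).1 h1.2).1 h1.1]

/-! ### the prime 2 -/

/-- odd part of the first component -/
noncomputable def U' (m : ℤ) (x : ℕ → ZMod 2) : ℤ :=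
  ∏ q ∈ ((RS m).erase 2).filter (fun q => x q = 1), (q : ℤ)

/-- odd part of the second component -/
noncomputable def V' (m : ℤ) (y : ℕ → ZMod 2) : ℤ :=
  ∏ q ∈ ((RS m).erase 2).filter (fun q => y q = 1), vq m q

/-- odd part of `m`, up to the sign -/
noncomputable def M' (m : ℤ) : ℤ := ∏ q ∈ (RS m).erase 2, vq m q

theorem odd_mem (hm : Squarefree m) {q : ℕ} (hq : q ∈ (RS m).erase 2) : q.Prime ∧ q ≠ 2 :=
  ⟨((mem_RS hm).1 (Finset.mem_erase.1 hq).2).1, (Finset.mem_erase.1 hq).1⟩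

theorem V'_mod4 (hm : Squarefree m) : V' m y % 4 = 1 :=
  prod_mod4 _ _ fun q hq => by
    have := odd_mem hm (Finset.mem_filter.1 hq).1
    exact vq_mod4 this.1 this.2

theorem M'_mod4 (hm : Squarefree m) : M' m % 4 = 1 :=
  prod_mod4 _ _ fun q hq => by
    have := odd_mem hm hq
    exact vq_mod4 this.1 this.2

theorem m_eq (hm : Squarefree m) (h2 : 2 ∈ RS m) : m = vq m 2 * M' m := by
  have e := Finset.mul_prod_erase (RS m) (fun q => vq m q) h2
  rw [prod_vq hm] at e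
  exact e.symm

theorem V_eq (h2 : 2 ∈ RS m) : Vv m y = (if y 2 = 1 then vq m 2 else 1) * V' m y := by
  unfold Vv V'
  rw [← erase_filter]
  by_cases hy : y 2 = 1
  · rw [if_pos hy]
    exact (Finset.mul_prod_erase _ (fun q => vq m q) (Finset.mem_filter.2 ⟨h2, hy⟩)).symm
  · rw [if_neg hy, one_mul, Finset.erase_eq_of_notMem]
    intro h
    exact hy (Finset.mem_filter.1 h).2

theorem f8_V' (hm : Squarefree m) : f8 (V' m y) = ∑ q ∈ (RS m).erase 2, lS m q 2 * y q := by
  unfold V'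
  rw [f8_prod, ← sum_filter_one]
  · refine Finset.sum_congr rfl fun q hq => ?_
    rw [lS_two (odd_mem hm hq).2]
  · intro q hq
    have := odd_mem hm (Finset.mem_filter.1 hq).1
    have := vq_mod4 (m := m) this.1 this.2
    omega

theorem f8_M' (hm : Squarefree m) : f8 (M' m) = LL m 2 2 := by
  unfold M'
  rw [f8_prod, LL_diag]
  · refine Finset.sum_congr rfl fun q hq => ?_
    rw [lS_two (odd_mem hm hq).2]
  · intro q hq
    have := odd_mem hm hq
    have := vq_mod4 (m := m) this.1 this.2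
    omega

theorem Sol.row2 (h : Sol m x y) (h2 : 2 ∈ RS m) : f8 (V' m y) = f8 (M' m) * y 2 := by
  have h1 := h.row' h2
  rw [nu_two, zero_mul, zero_add, ← Finset.add_sum_erase _ _ h2, ← f8_M' h.hm] at h1
  have e : ∑ q ∈ (RS m).erase 2, LL m 2 q * y q = ∑ q ∈ (RS m).erase 2, lS m q 2 * y q := by
    refine Finset.sum_congr rfl fun r hr => ?_
    rw [LL_off (Ne.symm (Finset.mem_erase.1 hr).1)]
  rw [e, ← f8_V' h.hm] at h1
  exact (z2_eq_of_add h1).symm


theorem U'_odd (hm : Squarefree m) : U' m x % 2 = 1 := by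
  refine odd_prod _ _ fun q hq => ?_
  have h1 := odd_mem hm (Finset.mem_filter.1 hq).1
  have := Nat.odd_iff.1 (odd_of_prime h1.1 h1.2)
  omega

theorem f8_U' (hm : Squarefree m) : f8 (U' m x) = ∑ q ∈ (RS m).erase 2, f8 q * x q := by
  unfold U'
  rw [f8_prod, ← sum_filter_one]
  intro q hq
  have h1 := odd_mem hm (Finset.mem_filter.1 hq).1
  have := Nat.odd_iff.1 (odd_of_prime h1.1 h1.2)
  omega

theorem f4_U' (hm : Squarefree m) : f4 (U' m x) = ∑ q ∈ (RS m).erase 2, f4 q * x q := by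
  unfold U'
  rw [f4_prod, ← sum_filter_one]
  intro q hq
  have h1 := odd_mem hm (Finset.mem_filter.1 hq).1
  have := Nat.odd_iff.1 (odd_of_prime h1.1 h1.2)
  omega

/-- the column of 2 -/
theorem Sol.col2 (h : Sol m x y) (h2 : 2 ∈ RS m) :
    ∑ p ∈ (RS m).erase 2, aj p (vq m 2) * x p + f8 (M' m) * x 2 + al m 2 * y 2 = 0 := by
  have h1 := h.col 2 h2
  rw [← Finset.add_sum_erase _ _ h2, ← f8_M' h.hm] at h1
  have e : ∑ p ∈ (RS m).erase 2, LL m p 2 * x p = ∑ p ∈ (RS m).erase 2, aj p (vq m 2) * x p := by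
    refine Finset.sum_congr rfl fun p hp => ?_
    have h3 := odd_mem h.hm hp
    rw [LL_off h3.2, lS_odd h3.1 h3.2 Nat.prime_two h3.2]
  rw [e] at h1
  linear_combination h1

theorem up2_odd {n : ℤ} (hn : n % 2 = 1) : up 2 n = n ∧ ¬ (2 : ℤ) ∣ n := by
  have h : ¬ (2 : ℤ) ∣ n := by omega
  unfold up
  refine ⟨if_neg ?_, h⟩
  exact_mod_cast h

theorem up2_two {n : ℤ} : up 2 (2 * n) = n := by
  unfold up
  have hc : ((2 : ℕ) : ℤ) = 2 := rfl
  rw [hc, if_pos (Dvd.intro _ rfl)]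
  omega

theorem e4_eq (n : ℤ) : e4 n = f4 (up 2 n) := rfl

theorem e8_eq (n : ℤ) : e8 n = f8 (up 2 n) := rfl

theorem f8_neg {n : ℤ} (hn : n % 2 = 1) : f8 (-n) = f8 n := by
  rw [← neg_one_mul, f8_mul (by decide) hn, f8_neg_one, zero_add]

theorem f8_eq_zero {n : ℤ} (h4 : n % 4 = 1) (h : f8 n = 0) : n % 8 = 1 := by
  unfold f8 at h
  by_cases h8 : n % 8 = 1 ∨ n % 8 = 7
  · omega
  · rw [if_neg h8] at h
    exact absurd h (by decide)

theorem f8_eq {n k : ℤ} (h4 : n % 4 = 1) (h4' : k % 4 = 1) (h : f8 n = f8 k) : n * k % 8 = 1 := by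
  have h1 : (n * k) % 4 = 1 := by rw [Int.mul_emod, h4, h4']; rfl
  refine f8_eq_zero h1 ?_
  rw [f8_mul (by omega) (by omega), h, z2_add_self]

theorem U_e (hm : Squarefree m) : e4 (U m x) = f4 (U' m x) ∧ e8 (U m x) = f8 (U' m x) := by
  have h1 := (U_up (x := x) hm Nat.prime_two).1
  constructor
  · rw [e4_eq, h1]; rfl
  · rw [e8_eq, h1]; rfl

/-- the condition at 2 -/
theorem Sol.e2 (h : Sol m x y) (h1 : m % 4 ≠ 1) :
    ((up 2 (Vv m y) % 8 = 1 ∧ ¬ (2 : ℤ) ∣ Vv m y) ∨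
    (((2 : ℤ) ∣ Vv m y ↔ (2 : ℤ) ∣ m) ∧ (up 2 (Vv m y) * up 2 m) % 8 = 1)) ∧
    h2 (U m x) m = e4 (Vv m y) := by
  have h0 := not_four h.hm
  have h2 := (two_mem_RS h.hm).2 h1
  have hrow := h.row2 h2
  have hcol := h.col2 h2
  have hV4 := V'_mod4 (y := y) h.hm
  have hM4 := M'_mod4 h.hm
  have hVe := V_eq (y := y) h2
  have hme := m_eq h.hm h2
  have hU2 := ind_U (x := x) h.hm h2
  have hUe := U_e (x := x) h.hm
  have hUo := U'_odd (x := x) h.hm
  have hv2 : vq m 2 = if m % 4 = 3 then -1 else if m % 8 = 2 then 2 else -2 := by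
    unfold vq; rw [if_pos rfl]
  have hind2 : ind 2 m = if m % 4 = 3 then 0 else 1 := by
    unfold ind
    have hc : ((2 : ℕ) : ℤ) = 2 := rfl
    rw [hc]
    by_cases h3 : m % 4 = 3
    · have hd : ¬ (2 : ℤ) ∣ m := by omega
      rw [if_pos h3, if_neg hd]
    · have hd : (2 : ℤ) ∣ m := by omega
      rw [if_neg h3, if_pos hd]
  have hf8U := f8_U' (x := x) h.hm
  have hf4U := f4_U' (x := x) h.hm
  unfold Pool.Agent.H743.X17.h2
  rw [hU2, hUe.1, hUe.2, hind2]
  rw [al_two] at hcol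
  by_cases h3 : m % 4 = 3
  · -- `m ≡ 3 mod 4`
    rw [if_pos h3] at hv2 hcol
    rw [if_pos h3]
    rw [hv2] at hVe hme hcol
    have hum : up 2 m = m ∧ ¬ (2 : ℤ) ∣ m := up2_odd (by omega)
    have e4m : e4 m = 1 := by rw [e4_eq, hum.1]; unfold f4; rw [if_pos h3]
    have e8m : e8 m = f8 (M' m) := by
      rw [e8_eq, hum.1]
      nth_rewrite 1 [hme]
      rw [neg_one_mul, f8_neg (by omega)]
    have ecol : ∑ p ∈ (RS m).erase 2, aj p (-1) * x p = f4 (U' m x) := by
      rw [hf4U]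
      refine Finset.sum_congr rfl fun p hp => ?_
      have h3 := odd_mem h.hm hp
      rw [aj_neg_one h3.1 h3.2]
    rw [ecol] at hcol
    rw [e4m, e8m]
    rcases z2 (y 2) with hy | hy
    · rw [hy] at hVe hrow hcol
      rw [if_neg (by decide), one_mul] at hVe
      rw [mul_zero] at hrow
      have hu := up2_odd (n := Vv m y) (by omega)
      have h8 : Vv m y % 8 = 1 := by rw [hVe]; exact f8_eq_zero hV4 hrow
      refine ⟨Or.inl ⟨by rw [hu.1]; exact h8, hu.2⟩, ?_⟩
      have e4v : e4 (Vv m y) = 0 := by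
        rw [e4_eq, hu.1]; unfold f4; rw [if_neg (by omega)]
      rw [e4v]
      linear_combination hcol
    · rw [hy] at hVe hrow hcol
      rw [if_pos rfl] at hVe
      rw [mul_one] at hrow
      have hu := up2_odd (n := Vv m y) (by omega)
      refine ⟨Or.inr ⟨⟨fun hh => absurd hh hu.2, fun hh => absurd hh hum.2⟩, ?_⟩, ?_⟩
      · rw [hu.1, hum.1, hVe]
        nth_rewrite 2 [hme]
        have := f8_eq hV4 hM4 hrow
        rw [show -1 * V' m y * (-1 * M' m) = V' m y * M' m by ring]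
        exact this
      · have e4v : e4 (Vv m y) = 1 := by
          rw [e4_eq, hu.1]; unfold f4; rw [if_pos (by omega)]
        rw [e4v]
        have h11 : (1 : ZMod 2) + 1 = 0 := by decide
        linear_combination hcol - h11
  · rw [if_neg h3] at hv2 hcol
    rw [if_neg h3]
    by_cases h8 : m % 8 = 2
    · -- `m ≡ 2 mod 8`
      rw [if_pos h8] at hv2 hcol
      rw [hv2] at hVe hme hcol
      have hum : up 2 m = M' m := by
        nth_rewrite 1 [hme]
        exact up2_two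
      have e4m : e4 m = 0 := by rw [e4_eq, hum]; unfold f4; rw [if_neg (by omega)]
      have e8m : e8 m = f8 (M' m) := by rw [e8_eq, hum]
      have ecol : ∑ p ∈ (RS m).erase 2, aj p 2 * x p = f8 (U' m x) := by
        rw [hf8U]
        refine Finset.sum_congr rfl fun p hp => ?_
        have h3 := odd_mem h.hm hp
        rw [aj_two h3.1 h3.2]
      rw [ecol] at hcol
      rw [e4m, e8m]
      rcases z2 (y 2) with hy | hy
      · rw [hy] at hVe hrow hcol
        rw [if_neg (by decide), one_mul] at hVe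
        rw [mul_zero] at hrow
        have hu := up2_odd (n := Vv m y) (by omega)
        have h8 : Vv m y % 8 = 1 := by rw [hVe]; exact f8_eq_zero hV4 hrow
        refine ⟨Or.inl ⟨by rw [hu.1]; exact h8, hu.2⟩, ?_⟩
        have e4v : e4 (Vv m y) = 0 := by
          rw [e4_eq, hu.1]; unfold f4; rw [if_neg (by omega)]
        rw [e4v]
        linear_combination hcol
      · rw [hy] at hVe hrow hcol
        rw [if_pos rfl] at hVe
        rw [mul_one] at hrow
        have hu : up 2 (Vv m y) = V' m y := by rw [hVe]; exact up2_two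
        refine ⟨Or.inr ⟨⟨fun _ => by omega, fun _ => by omega⟩, ?_⟩, ?_⟩
        · rw [hu, hum]
          exact f8_eq hV4 hM4 hrow
        · have e4v : e4 (Vv m y) = 0 := by
            rw [e4_eq, hu]; unfold f4; rw [if_neg (by omega)]
          rw [e4v]
          linear_combination hcol
    · -- `m ≡ 6 mod 8`
      rw [if_neg h8] at hv2 hcol
      rw [hv2] at hVe hme hcol
      have hum : up 2 m = -M' m := by
        nth_rewrite 1 [hme]
        rw [show -2 * M' m = 2 * (-M' m) by ring]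
        exact up2_two
      have e4m : e4 m = 1 := by rw [e4_eq, hum]; unfold f4; rw [if_pos (by omega)]
      have e8m : e8 m = f8 (M' m) := by rw [e8_eq, hum, f8_neg (by omega)]
      have ecol : ∑ p ∈ (RS m).erase 2, aj p (-2) * x p = f4 (U' m x) + f8 (U' m x) := by
        rw [hf8U, hf4U, ← Finset.sum_add_distrib]
        refine Finset.sum_congr rfl fun p hp => ?_
        have h3 := odd_mem h.hm hp
        have h' : ¬ (p : ℤ) ∣ 2 := by exact_mod_cast nd_prime h3.1 Nat.prime_two h3.2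
        rw [show (-2 : ℤ) = -1 * 2 by ring, aj_mul h3.1 (nd_neg (nd_one h3.1)) h',
          aj_two h3.1 h3.2, aj_neg_one h3.1 h3.2]
        ring
      rw [ecol] at hcol
      rw [e4m, e8m]
      rcases z2 (y 2) with hy | hy
      · rw [hy] at hVe hrow hcol
        rw [if_neg (by decide), one_mul] at hVe
        rw [mul_zero] at hrow
        have hu := up2_odd (n := Vv m y) (by omega)
        have h8 : Vv m y % 8 = 1 := by rw [hVe]; exact f8_eq_zero hV4 hrow
        refine ⟨Or.inl ⟨by rw [hu.1]; exact h8, hu.2⟩, ?_⟩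
        have e4v : e4 (Vv m y) = 0 := by
          rw [e4_eq, hu.1]; unfold f4; rw [if_neg (by omega)]
        rw [e4v]
        linear_combination hcol
      · rw [hy] at hVe hrow hcol
        rw [if_pos rfl] at hVe
        rw [mul_one] at hrow
        have hu : up 2 (Vv m y) = -V' m y := by
          rw [hVe, show -2 * V' m y = 2 * (-V' m y) by ring]; exact up2_two
        refine ⟨Or.inr ⟨⟨fun _ => by omega, fun _ => by omega⟩, ?_⟩, ?_⟩
        · rw [hu, hum, neg_mul_neg]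
          exact f8_eq hV4 hM4 hrow
        · have e4v : e4 (Vv m y) = 1 := by
            rw [e4_eq, hu]; unfold f4; rw [if_pos (by omega)]
          rw [e4v]
          have h11 : (1 : ZMod 2) + 1 = 0 := by decide
          linear_combination hcol - h11

theorem Sol.lc (h : Sol m x y) : LC m (U m x) (Vv m y) := by
  have hm := h.hm
  refine ⟨fun _ => h.V_pos, fun _ => mul_pos (U_pos hm) h.V_pos, ?_, ?_, ?_, ?_, ?_, h.e2⟩
  · intro p hp hp2 _ hd
    have hn : p ∉ RS m := by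
      intro hh
      rcases ((mem_RS hm).1 hh).2 with h1 | h1
      · exact hd h1
      · exact hp2 h1.1
    exact ⟨fun hh => hn ((U_up hm hp).2.1 hh).1, fun hh => hn ((V_up hm hp hp2).2.1 hh).1⟩
  · intro p hp hp2 hne hd
    have hn : p ∈ RS m := (mem_RS hm).2 ⟨hp, Or.inl hd⟩
    rw [ind_U hm hn, ind_V hm hn hp2, lam_neg_one hp hp2, lam_neg hm hp hp2 hd, lam17 hp hp2 hne,
      h.lamU hn hp2, h.lamV hn hp2, diag_odd hm hn hp2]
    constructor <;> ring
  · intro hd
    have hn : 17 ∉ RS m := by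
      intro hh
      rcases ((mem_RS hm).1 hh).2 with h1 | h1
      · exact hd (by exact_mod_cast h1)
      · omega
    refine ⟨fun hh => hn ((U_up hm p17).2.1 (by exact_mod_cast hh)).1, ?_⟩
    have h1 : ind 17 (Vv m y) = 0 := by
      unfold ind
      rw [if_neg]
      intro hh
      exact hn ((V_up hm p17 (by norm_num)).2.1 hh).1
    rw [h1, zero_mul]
    exact h.lam17U
  · intro hd
    have hn : 17 ∈ RS m := (mem_RS hm).2 ⟨p17, Or.inl (by exact_mod_cast hd)⟩
    rw [ind_U hm hn, ind_V hm hn (by norm_num), h.x17, h.lam17U, h.lamV hn (by norm_num), h.x17]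
    constructor <;> ring
  · intro h1
    have hn : 2 ∉ RS m := fun hh => (two_mem_RS hm).1 hh h1
    refine ⟨fun hh => hn ((U_up hm Nat.prime_two).2.1 (by exact_mod_cast hh)).1, ?_⟩
    unfold Vv
    refine prod_mod4 _ _ fun q hq => ?_
    have hq' := (Finset.mem_filter.1 hq).1
    exact vq_mod4 ((mem_RS hm).1 hq').1 (fun hh => hn (hh ▸ hq'))

theorem sq17 {a : ℤ} (h : IsSquare (17 * a)) : (17 : ℤ) ∣ a := by
  obtain ⟨r, hr⟩ := h
  have hp : Prime (17 : ℤ) := by
    have := Nat.prime_iff_prime_int.1 p17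
    exact_mod_cast this
  have h1 : (17 : ℤ) ∣ r * r := ⟨a, hr.symm⟩
  have h2 : (17 : ℤ) ∣ r := by
    rcases hp.dvd_or_dvd h1 with h | h <;> exact h
  obtain ⟨k, hk⟩ := h2
  refine ⟨k * k, ?_⟩
  rw [hk] at hr
  have : (17 : ℤ) * a = 17 * (17 * (k * k)) := by rw [hr]; ring
  omega

end solution

theorem t_SYSB : S_SYSB := by
  intro m hm hTC x y x17 hrow hcol
  have h : Sol m x y := ⟨hm, x17, hrow, hcol⟩
  have hT := hTC (U m x) (Vv m y) (U_sqf hm) (V_sqf hm) h.lc
  have hU := U_pos (x := x) hm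
  have hV := h.V_pos
  have hm0 := hm.ne_zero
  have hp : Prime (17 : ℤ) := by
    have := Nat.prime_iff_prime_int.1 p17
    exact_mod_cast this
  have h17 : (17 : ℤ) ∣ m → ¬ (17 : ℤ) ∣ U m x := by
    intro _ hh
    have := ((U_up (x := x) hm p17).2.1 (by exact_mod_cast hh)).2
    rw [x17] at this
    exact absurd this (by decide)
  have h17' : ¬ (17 : ℤ) ∣ m → ¬ (17 : ℤ) ∣ Vv m y := by
    intro hd hh
    exact hd (hh.trans (V_dvd hm))
  have h17m : ∀ k : ℤ, m = 17 * k → ¬ (17 : ℤ) ∣ k := by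
    rintro k hk ⟨j, hj⟩
    exact hp.not_isUnit (hm 17 ⟨j, by rw [hk, hj]; ring⟩)
  have hsq : IsSquare (U m x) ∧ IsSquare (Vv m y) := by
    rcases hT with h1 | h1 | h1 | h1
    · exact h1
    · exfalso
      obtain ⟨r, hr⟩ := h1.1
      have h2 : 0 < m ^ 2 * U m x := mul_pos (by positivity) hU
      nlinarith [mul_self_nonneg r]
    · exfalso
      by_cases hd : (17 : ℤ) ∣ m
      · obtain ⟨k, hk⟩ := hd
        have h2 : IsSquare (17 * (-k * U m x)) := by
          have := h1.1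
          rwa [show -m * U m x = 17 * (-k * U m x) by rw [hk]; ring] at this
        have h3 := sq17 h2
        rcases hp.dvd_or_dvd h3 with h4 | h4
        · exact h17m k hk ((dvd_neg).1 h4)
        · exact h17 ⟨k, hk⟩ h4
      · have h2 : IsSquare (17 * (m * m * Vv m y)) := by
          have := h1.2
          rwa [show m * (m - -16 * m) * Vv m y = 17 * (m * m * Vv m y) by ring] at this
        have h3 := sq17 h2
        rcases hp.dvd_or_dvd h3 with h4 | h4
        · rcases hp.dvd_or_dvd h4 with h5 | h5 <;> exact hd h5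
        · exact h17' hd h4
    · exfalso
      by_cases hd : (17 : ℤ) ∣ m
      · obtain ⟨k, hk⟩ := hd
        have h2 : IsSquare (17 * (16 * k * U m x)) := by
          have := h1.1
          rwa [show -(-16 * m) * U m x = 17 * (16 * k * U m x) by rw [hk]; ring] at this
        have h3 := sq17 h2
        rcases hp.dvd_or_dvd h3 with h4 | h4
        · rcases hp.dvd_or_dvd h4 with h5 | h5
          · omega
          · exact h17m k hk h5
        · exact h17 ⟨k, hk⟩ h4
      · have h2 : IsSquare (17 * (m * Vv m y)) := by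
          have := h1.2
          rwa [show (m - -16 * m) * Vv m y = 17 * (m * Vv m y) by ring] at this
        have h3 := sq17 h2
        rcases hp.dvd_or_dvd h3 with h4 | h4
        · exact hd h4
        · exact h17' hd h4
  have one_of : ∀ a : ℤ, 0 < a → Squarefree a → IsSquare a → a = 1 := by
    rintro a ha hs ⟨r, hr⟩
    have h1 : IsUnit r := hs r ⟨1, by rw [hr]; ring⟩
    rcases Int.isUnit_iff.1 h1 with h2 | h2 <;> rw [hr, h2] <;> rfl
  have hU1 := one_of _ hU (U_sqf hm) hsq.1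
  have hV1 := one_of _ hV (V_sqf hm) hsq.2
  intro p hpm
  have hpp := ((mem_RS hm).1 hpm).1
  constructor
  · rcases z2 (x p) with hx | hx
    · exact hx
    · exfalso
      have := (U_up (x := x) hm hpp).2.2 ⟨hpm, hx⟩
      rw [hU1] at this
      exact nd_one hpp this
  · rcases z2 (y p) with hy | hy
    · exact hy
    · exfalso
      by_cases hp2 : p = 2
      · subst hp2
        have h1 := V_eq (y := y) hpm
        rw [if_pos hy, hV1] at h1
        have h2 := V'_mod4 (y := y) hm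
        unfold vq at h1
        rw [if_pos rfl] at h1
        split_ifs at h1 <;> omega
      · have := (V_up (y := y) hm hpp hp2).2.2 ⟨hpm, hy⟩
        rw [hV1] at this
        exact nd_one hpp this

end Pool.Agent.H686.X17

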